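import Pool.Agent.H57.ZP.Defs
import Pool.Agent.H57.ZP.KDefs
import Pool.Agent.H57.ZP.ThreeDefs
import Pool.Agent.H91.L.W5h93_EX_PrimeDefs

/-!
# Schemes built from completions of partial matrices: definitions
-/

set_option autoImplicit false

open CategoryTheory AlgebraicGeometry MvPolynomial Pool.Agent.Y116.UV Pool.Agent.W5h93.EV
  Pool.Agent.W5h93.EX Pool.Agent.H57.ZP

namespace Pool.Agent.H92.ZW

/-- The class of the schemes which are **built from the schemes in `S`**: the smallest class of schemes
over `k` which contains the schemes in `S` and the affine spaces (`mem`, `space`), is closed under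
isomorphisms, and has the following properties.

* If two of `X`, `Z`, `U` are in the class, then the third is in the class, for a closed subscheme `Z` of a
  separated scheme `X` of finite type and its complement `U` (`total`, `opened`, `closed`).
* For functions `f_1, …, f_m` on `Spec A` the scheme `U` where they are not all zero is in the class if
  and only if the affine bundle `Spec A[y_1, …, y_m]/(∑ y_l f_l - 1) → U` is in the class (`bundle`,
  `base`).
* If `Spec A × 𝔾_m` is in the class, then `Spec A` is in the class (`torus`). -/
inductive Gen {k : Type} [Field k] (S : Set (Sch k)) : Sch k → Prop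
  | mem (X : Sch k) : X ∈ S → Gen S X
  | space (n : ℕ) : Gen S (aff k (MvPolynomial (Fin n) k))
  | iso (X Y : Sch k) : FT True X → Nonempty (X ≅ Y) → Gen S X → Gen S Y
  | total (Z X U : Sch k) (i : Z ⟶ X) (j : U ⟶ X) : FT True X → Decomp i j → Gen S Z →
      Gen S U → Gen S X
  | opened (Z X U : Sch k) (i : Z ⟶ X) (j : U ⟶ X) : FT True X → Decomp i j → Gen S Z →
      Gen S X → Gen S U
  | closed (Z X U : Sch k) (i : Z ⟶ X) (j : U ⟶ X) : FT True X → Decomp i j → Gen S X →
      Gen S U → Gen S Z
  | bundle (A : Type) [CommRing A] [Algebra k A] [Algebra.FiniteType k A] (m : ℕ) (f : Fin m → A)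
      (U : Sch k) : Compl f U → Gen S U → Gen S (aff k (Jou f))
  | base (A : Type) [CommRing A] [Algebra k A] [Algebra.FiniteType k A] (m : ℕ) (f : Fin m → A)
      (U : Sch k) : Compl f U → Gen S (aff k (Jou f)) → Gen S U
  | torus (A : Type) [CommRing A] [Algebra k A] [Algebra.FiniteType k A] :
      Gen S (aff k (LaurentPolynomial A)) → Gen S (aff k A)

/-- the schemes of the invertible completions of the partial square matrices in the list `F` which have,
in each row and in each column, at most three places without a prescribed zero -/
def GlC {k : Type} [Field k] (F : Finset (Σ n : ℕ, Fin n → Fin n → Option k)) : Set (Sch k) :=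
  {Y | ∃ Z ∈ F, Three Z.2 ∧ Y = glC Z.2}

/-- the schemes of the completions of rank at most three of the partial matrices in the list `F` -/
def RkC {k : Type} [Field k] (F : Finset (Σ m : ℕ, Σ n : ℕ, Fin m → Fin n → Option k)) :
    Set (Sch k) :=
  {Y | ∃ Z ∈ F, Y = rkC Z.2.2}

/-- the schemes of the invertible matrices with prescribed zeros, for the sets of places in the list
`F`, with at most three other places in each row and in each column -/
def GlS (k : Type) [Field k] (F : Finset (Σ n : ℕ, Finset (Fin n × Fin n))) : Set (Sch k) :=
  {Y | ∃ Z ∈ F, ThreeZ Z.2 ∧ Y = glS k Z.2}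

/-- the schemes of the matrices of rank at most three with prescribed zeros, for the sets of places in
the list `F` -/
def RkS (k : Type) [Field k] (F : Finset (Σ m : ℕ, Σ n : ℕ, Finset (Fin m × Fin n))) :
    Set (Sch k) :=
  {Y | ∃ Z ∈ F, Y = rkS k Z.2.2}

/-- **Every separated scheme of finite type over `k` is built from finitely many schemes of completions
of partial matrices**: from finitely many schemes of invertible completions, with at most three places
without a prescribed zero in each row and each column, and also from finitely many schemes of completions
of rank at most three; if `k` is a prime field, partial matrices with the only prescribed element zero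
suffice. -/
structure Generated (k : Type) [Field k] : Prop where
  gl : ∀ X : Sch k, FT True X → ∃ F, Gen (GlC F) X
  rk : ∀ X : Sch k, FT True X → ∃ F, Gen (RkC F) X
  gl_zero : IsPrimeField k → ∀ X : Sch k, FT True X → ∃ F, Gen (GlS k F) X
  rk_zero : IsPrimeField k → ∀ X : Sch k, FT True X → ∃ F, Gen (RkS k F) X

/-- **The reduction to the completions of partial matrices** of the property `C` of the schemes of the
class `Q`. The property `P` extends `C` to all separated schemes of finite type.

If all integral schemes of finite type over `k` have birational models in the class, then `C` for all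
schemes of the class is equivalent to `P` for the schemes of the invertible completions of the partial
square matrices over `k` with at most three places without a prescribed zero in each row and each column,
and also to `P` for the schemes of the completions of rank at most three of all partial matrices over `k`;
if `k` is a prime field, partial matrices with the only prescribed element zero suffice. If the scheme `X` in the class is built from the schemes in the set `S`, then `P` for the
schemes in `S` implies `C` for `X`. -/
structure MatrixReduces {k : Type} [Field k] (Q C P : Sch k → Prop) : Prop where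
  gl : (∀ n, ModelsIn Q n) →
    ((∀ X, Q X → C X) ↔ ∀ (n : ℕ) (Z : Fin n → Fin n → Option k), Three Z → P (glC Z))
  rk : (∀ n, ModelsIn Q n) →
    ((∀ X, Q X → C X) ↔ ∀ (m n : ℕ) (Z : Fin m → Fin n → Option k), P (rkC Z))
  gl_zero : IsPrimeField k → (∀ n, ModelsIn Q n) →
    ((∀ X, Q X → C X) ↔ ∀ (n : ℕ) (Z : Finset (Fin n × Fin n)), ThreeZ Z → P (glS k Z))
  rk_zero : IsPrimeField k → (∀ n, ModelsIn Q n) →
    ((∀ X, Q X → C X) ↔ ∀ (m n : ℕ) (Z : Finset (Fin m × Fin n)), P (rkS k Z))
  of_gen : ∀ (S : Set (Sch k)) (X : Sch k), Q X → Gen S X → (∀ Y ∈ S, P Y) → C X

end Pool.Agent.H92.ZW
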