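import Pool.Agent.H92.ZW.Defs
import Pool.Agent.H57.ZP.KRed
import Pool.Agent.H57.ZP.Three
import Pool.Agent.H91.L.W5h93_EX_Prime

/-!
# Completions of partial matrices and classes of smooth projective varieties
-/

set_option autoImplicit false
set_option linter.unusedSectionVars false

open CategoryTheory Limits Pretriangulated MonoidalCategory AlgebraicGeometry MvPolynomial
  Pool.Agent.Y116.UV Pool.Agent.Z125.UN Pool.Agent.W5h93.EV Pool.Agent.W5h93.EX
  Pool.Agent.W5h93.WC Pool.Agent.H57.ZP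

universe v u

namespace Pool.Agent.H92.ZW

section gen

variable {k : Type} [Field k]

/-- The class has the closure properties. -/
theorem bnd_gen (S : Set (Sch k)) : Bnd True (Gen S) where
  iso {X Y} hX e h := .iso X Y hX e h
  total {Z X U} i j hX ht h1 h2 := .total Z X U i j hX ⟨ht.closed, ht.opened, ht.compl⟩ h1 h2
  opened {Z X U} i j hX ht h1 h2 := .opened Z X U i j hX ⟨ht.closed, ht.opened, ht.compl⟩ h1 h2
  closed {Z X U} i j hX ht h1 h2 := .closed Z X U i j hX ⟨ht.closed, ht.opened, ht.compl⟩ h1 h2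
  space m := .space m
  jouanolou A _ _ _ m f U j h1 h2 h3 := .base A m f U ⟨j, h1, h2⟩ h3
  bundle A _ _ _ m f U j h1 h2 h3 := .bundle A m f U ⟨j, h1, h2⟩ h3
  torus A _ _ _ h := .torus A h

/-- The properties with the closure properties which are true for the schemes in `S` are true for the
schemes built from them. -/
theorem of_gen {P : Sch k → Prop} (hP : Bnd True P) {S : Set (Sch k)} (h : ∀ X ∈ S, P X)
    (X : Sch k) (hX : Gen S X) : P X := by
  induction hX with
  | mem X h1 => exact h X h1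
  | space n => exact hP.space n
  | iso X Y h1 h2 _ ih => exact hP.iso h1 h2 ih
  | total Z X U i j h1 h2 _ _ ih1 ih2 => exact hP.total i j h1 ⟨h2.1, h2.2.1, h2.2.2⟩ ih1 ih2
  | opened Z X U i j h1 h2 _ _ ih1 ih2 => exact hP.opened i j h1 ⟨h2.1, h2.2.1, h2.2.2⟩ ih1 ih2
  | closed Z X U i j h1 h2 _ _ ih1 ih2 => exact hP.closed i j h1 ⟨h2.1, h2.2.1, h2.2.2⟩ ih1 ih2
  | bundle A m f U h1 _ ih =>
    obtain ⟨j, h1, h2⟩ := h1
    exact hP.bundle A m f U j h1 h2 ih
  | base A m f U h1 _ ih =>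
    obtain ⟨j, h1, h2⟩ := h1
    exact hP.jouanolou A m f U j h1 h2 ih
  | torus A _ ih => exact hP.torus A ih

lemma Gen.mono {S T : Set (Sch k)} (h : S ⊆ T) {X : Sch k} (hX : Gen S X) : Gen T X :=
  of_gen (bnd_gen T) (fun Y hY => .mem Y (h hY)) X hX

/-- The closure properties of the union over the finite lists. -/
theorem bnd_fin {ι : Type} (G : Finset ι → Set (Sch k))
    (hG : ∀ F F', F ⊆ F' → G F ⊆ G F') : Bnd True fun X : Sch k => ∃ F : Finset ι, Gen (G F) X := by
  classical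
  have h2 : ∀ {A B : Sch k}, (∃ F : Finset ι, Gen (G F) A) → (∃ F : Finset ι, Gen (G F) B) →
      ∃ F : Finset ι, Gen (G F) A ∧ Gen (G F) B := by
    rintro A B ⟨F, h⟩ ⟨F', h'⟩
    exact ⟨F ∪ F', h.mono (hG _ _ Finset.subset_union_left),
      h'.mono (hG _ _ Finset.subset_union_right)⟩
  exact
    { iso := fun {X Y} hX e => fun ⟨F, h⟩ => ⟨F, .iso X Y hX e h⟩
      total := fun {Z X U} i j hX ht h h' => by
        obtain ⟨F, h3, h4⟩ := h2 h h'
        exact ⟨F, (bnd_gen _).total i j hX ht h3 h4⟩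
      opened := fun {Z X U} i j hX ht h h' => by
        obtain ⟨F, h3, h4⟩ := h2 h h'
        exact ⟨F, (bnd_gen _).opened i j hX ht h3 h4⟩
      closed := fun {Z X U} i j hX ht h h' => by
        obtain ⟨F, h3, h4⟩ := h2 h h'
        exact ⟨F, (bnd_gen _).closed i j hX ht h3 h4⟩
      space := fun n => ⟨∅, .space n⟩
      jouanolou := fun A _ _ _ m f U j h1 h2 => fun ⟨F, h⟩ =>
        ⟨F, (bnd_gen _).jouanolou A m f U j h1 h2 h⟩
      bundle := fun A _ _ _ m f U j h1 h2 => fun ⟨F, h⟩ =>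
        ⟨F, (bnd_gen _).bundle A m f U j h1 h2 h⟩
      torus := fun A _ _ _ => fun ⟨F, h⟩ => ⟨F, .torus A h⟩ }

lemma frac_of_prime (hk : IsPrimeField k) : Pool.Agent.Q193.LT.Frac k := fun r => by
  obtain ⟨a, b, hb, h⟩ := hk r
  exact ⟨b, a, isUnit_iff_ne_zero.mpr hb, h.symm⟩

variable (k) in
/-- **Every scheme is built from finitely many schemes of completions of partial matrices.** -/
theorem generated : Generated k where
  gl X hX := by
    refine universal_glC3 (bnd_fin GlC fun F F' h => ?_) (fun n Z h3 => ?_) X hX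
    · rintro Y ⟨Z, hZ, h3, rfl⟩
      exact ⟨Z, h hZ, h3, rfl⟩
    · exact ⟨{⟨n, Z⟩}, .mem _ ⟨⟨n, Z⟩, Finset.mem_singleton_self _, h3, rfl⟩⟩
  rk X hX := by
    refine universal_rkC (bnd_fin RkC fun F F' h => ?_) (fun m n Z => ?_) X hX
    · rintro Y ⟨Z, hZ, rfl⟩
      exact ⟨Z, h hZ, rfl⟩
    · exact ⟨{⟨m, n, Z⟩}, .mem _ ⟨⟨m, n, Z⟩, Finset.mem_singleton_self _, rfl⟩⟩
  gl_zero hk X hX := by
    refine universal_gl3 (frac_of_prime hk) (bnd_fin (GlS k) fun F F' h => ?_)
      (fun n Z h3 => ?_) X hX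
    · rintro Y ⟨Z, hZ, h3, rfl⟩
      exact ⟨Z, h hZ, h3, rfl⟩
    · exact ⟨{⟨n, Z⟩}, .mem _ ⟨⟨n, Z⟩, Finset.mem_singleton_self _, h3, rfl⟩⟩
  rk_zero hk X hX := by
    refine universal_rk (frac_of_prime hk) (bnd_fin (RkS k) fun F F' h => ?_) (fun m n Z => ?_) X hX
    · rintro Y ⟨Z, hZ, rfl⟩
      exact ⟨Z, h hZ, rfl⟩
    · exact ⟨{⟨m, n, Z⟩}, .mem _ ⟨⟨m, n, Z⟩, Finset.mem_singleton_self _, rfl⟩⟩

lemma ft_glS {n : ℕ} (Z : Finset (Fin n × Fin n)) : FT True (glS k Z) := by
  have h1 : Algebra.FiniteType k (Localization.Away (genMat k Z).det) :=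
    Algebra.FiniteType.trans (S := MvPolynomial {x : Fin n × Fin n // x ∉ Z} k) inferInstance
      inferInstance
  exact ft_aff True

lemma ft_glC {n : ℕ} (Z : Fin n → Fin n → Option k) : FT True (glC Z) := by
  have h1 : Algebra.FiniteType k (Localization.Away (fillMat Z).det) :=
    Algebra.FiniteType.trans (S := MvPolynomial {x : Fin n × Fin n // Z x.1 x.2 = none} k)
      inferInstance inferInstance
  exact ft_aff True

end gen

section reduction

variable {k : Type} [Field k] [PerfectField k] {Q C P : Sch k → Prop}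

/-- **The reduction to the completions of partial matrices.** -/
theorem matrixReduces (hP : Bnd True P) (hQ : IsClass Q) (h : ∀ X, Q X → (C X ↔ P X)) :
    MatrixReduces Q C P := by
  have hr := completionsReduce hP hQ h
  exact
    { gl := fun hM => ⟨fun h1 n Z _ => hr.to_all hM h1 _ (ft_glC Z), fun h1 X hX =>
        (h X hX).mpr (universal_glC3 hP h1 X (hQ.ft hX))⟩
      rk := fun hM => ⟨fun h1 m n Z => hr.to_all hM h1 _ (ft_aff True), hr.of_rk⟩
      gl_zero := fun hk hM => ⟨fun h1 n Z _ => hr.to_all hM h1 _ (ft_glS Z), fun h1 X hX =>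
        (h X hX).mpr (universal_gl3 (frac_of_prime hk) hP h1 X (hQ.ft hX))⟩
      rk_zero := fun hk hM => ⟨fun h1 m n Z => hr.to_all hM h1 _ (ft_aff True),
        hr.of_rk_zero (frac_of_prime hk)⟩
      of_gen := fun S X hX hS h1 => (h X hX).mpr (of_gen hP h1 X hS) }

end reduction

section wc

variable {k : Type} [Field k] {𝒜 : Type u} [Category.{v} 𝒜] [Preadditive 𝒜] [HasZeroObject 𝒜]
  [HasBinaryBiproducts 𝒜] [MonoidalCategory 𝒜] [MonoidalPreadditive 𝒜] {T : ℤ → 𝒜}
  {W : Sch k → HomotopyCategory 𝒜 (ComplexShape.up ℤ)} {V : Cls 𝒜}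

/-- **The reduction to the completions of partial matrices, for any class of motives closed under sums,
retracts and Tate twists.** -/
theorem matrixReduces_wc [PerfectField k]
    (hT : ∀ (j : ℤ) (A : 𝒜), V.prop A → V.prop (A ⊗ T j)) (h0 : V.prop (T 0))
    (hW : IsWeightComplex T W) {Q : Sch k → Prop} (hQ : IsClass Q)
    (h : Sch k → 𝒜) (hh : ∀ X, Q X → Nonempty (W X ≅ cpx (h X))) :
    MatrixReduces Q (fun X => V.prop (h X)) (fun X => Null V.prop (W X).as) :=
  matrixReduces (bnd_wc hT h0 hW) hQ fun X hX => by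
    obtain ⟨e⟩ := hh X hX
    rw [← null_cpx]
    exact ⟨fun h1 => h1.of_iso e.symm, fun h1 => h1.of_iso e⟩

end wc

end Pool.Agent.H92.ZW
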