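import Pool.Agent.H92.ZW.Main
import Pool.Agent.H91.L.W5h93_WC_MurreMain

/-!
# Murre's conjectures and completions of partial matrices
-/

set_option autoImplicit false
set_option linter.unusedSectionVars false

open CategoryTheory Limits Pretriangulated MonoidalCategory AlgebraicGeometry MvPolynomial
  Pool.Agent.Y116.UV Pool.Agent.Z125.UN Pool.Agent.W5h93.EV Pool.Agent.W5h93.EX
  Pool.Agent.W5h93.WC Pool.Agent.H57.ZP

universe v u v' u'

namespace Pool.Agent.H92.ZW

section point

variable {k : Type} [Field k]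

/-- the empty square matrix -/
lemma glC_point (Z : Fin 0 → Fin 0 → Option k) : Nonempty (glC Z ≅ aff k k) := by
  have h1 : (fillMat Z).det = 1 := Matrix.det_fin_zero
  have : IsEmpty {x : Fin 0 × Fin 0 // Z x.1 x.2 = none} := ⟨fun x => x.1.1.elim0⟩
  have h2 : IsLocalization.Away (fillMat Z).det
      (MvPolynomial {x : Fin 0 × Fin 0 // Z x.1 x.2 = none} k) := by
    rw [h1]
    exact IsLocalization.away_of_isUnit_of_bijective _ isUnit_one Function.bijective_id
  let e1 : MvPolynomial {x : Fin 0 × Fin 0 // Z x.1 x.2 = none} k ≃ₐ[k]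
      Localization.Away (fillMat Z).det :=
    (IsLocalization.algEquiv (Submonoid.powers (fillMat Z).det)
      (MvPolynomial {x : Fin 0 × Fin 0 // Z x.1 x.2 = none} k)
      (Localization.Away (fillMat Z).det)).restrictScalars k
  exact ⟨affIso (e1.symm.trans (MvPolynomial.isEmptyAlgEquiv k _)).symm⟩

lemma glS_point (Z : Finset (Fin 0 × Fin 0)) : Nonempty (glS k Z ≅ aff k k) := by
  have h1 : (genMat k Z).det = 1 := Matrix.det_fin_zero
  have : IsEmpty {x : Fin 0 × Fin 0 // x ∉ Z} := ⟨fun x => x.1.1.elim0⟩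
  have h2 : IsLocalization.Away (genMat k Z).det
      (MvPolynomial {x : Fin 0 × Fin 0 // x ∉ Z} k) := by
    rw [h1]
    exact IsLocalization.away_of_isUnit_of_bijective _ isUnit_one Function.bijective_id
  let e1 : MvPolynomial {x : Fin 0 × Fin 0 // x ∉ Z} k ≃ₐ[k]
      Localization.Away (genMat k Z).det :=
    (IsLocalization.algEquiv (Submonoid.powers (genMat k Z).det)
      (MvPolynomial {x : Fin 0 × Fin 0 // x ∉ Z} k)
      (Localization.Away (genMat k Z).det)).restrictScalars k
  exact ⟨affIso (e1.symm.trans (MvPolynomial.isEmptyAlgEquiv k _)).symm⟩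

lemma quot_point {I : Ideal (MvPolynomial (Fin 0 × Fin 0) k)} (hI : I = ⊥) :
    Nonempty (aff k (MvPolynomial (Fin 0 × Fin 0) k ⧸ I) ≅ aff k k) :=
  ⟨affIso (((Ideal.quotientEquivAlgOfEq k hI).trans (AlgEquiv.quotientBot k _)).trans
    (MvPolynomial.isEmptyAlgEquiv k _)).symm⟩

lemma rkC_point (Z : Fin 0 → Fin 0 → Option k) : Nonempty (rkC Z ≅ aff k k) := by
  refine quot_point ?_
  unfold rkIC
  rw [Ideal.span_eq_bot]
  rintro _ (⟨i, _⟩ | ⟨α, _⟩)
  · exact i.elim0
  · exact (α 0).elim0

lemma rkS_point (Z : Finset (Fin 0 × Fin 0)) : Nonempty (rkS k Z ≅ aff k k) := by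
  refine quot_point ?_
  unfold rkI
  rw [Ideal.span_eq_bot]
  rintro _ (⟨x, _⟩ | ⟨α, _⟩)
  · exact x.1.elim0
  · exact (α 0).elim0

end point

section murre

variable {k : Type} [Field k] {𝒜 : Type u} [Category.{v} 𝒜] [Preadditive 𝒜] [HasZeroObject 𝒜]
  [HasBinaryBiproducts 𝒜] [IsIdempotentComplete 𝒜] [MonoidalCategory 𝒜] [MonoidalPreadditive 𝒜]
  {𝒢 : Type u'} [Category.{v'} 𝒢] [Preadditive 𝒢] {T : ℤ → 𝒜} {H : ℤ → 𝒜 ⥤ 𝒢}
  {W : Sch k → HomotopyCategory 𝒜 (ComplexShape.up ℤ)}

variable (hT : IsTate T) (hH : IsHomology T H) (hW : IsWeightComplex T W) {Q : Sch k → Prop}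
  (hQ : IsClass Q) {h : Sch k → 𝒜} (hh : ∀ X, Q X → Nonempty (W X ≅ cpx (h X)))

/-- **The reduction of Murre's conjectures to the completions of partial matrices.** Murre's
conjectures for all motives are equivalent to the statement that the weight complexes of the schemes of
the invertible completions of the partial square matrices with at most three places without a prescribed
zero in each row and each column are null, and also to the same statement for the completions of rank at
most three of all partial matrices; over a prime field the prescribed element zero is enough. If the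
scheme `X` in the class is built from the schemes in `S`, whose weight complexes are null, then `h X` is a
strong Murre motive, provided that the unit object is. -/
structure MurreReduces (T : ℤ → 𝒜) (H : ℤ → 𝒜 ⥤ 𝒢)
    (W : Sch k → HomotopyCategory 𝒜 (ComplexShape.up ℤ)) (Q : Sch k → Prop) (h : Sch k → 𝒜) :
    Prop where
  gl : (∀ M : 𝒜, Murre T H M) ↔ ∀ (n : ℕ) (Z : Fin n → Fin n → Option k), Three Z →
    Null (Strong H fun _ => True) (W (glC Z)).as
  rk : (∀ M : 𝒜, Murre T H M) ↔ ∀ (m n : ℕ) (Z : Fin m → Fin n → Option k),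
    Null (Strong H fun _ => True) (W (rkC Z)).as
  gl_zero : IsPrimeField k → ((∀ M : 𝒜, Murre T H M) ↔ ∀ (n : ℕ) (Z : Finset (Fin n × Fin n)),
    ThreeZ Z → Null (Strong H fun _ => True) (W (glS k Z)).as)
  rk_zero : IsPrimeField k → ((∀ M : 𝒜, Murre T H M) ↔ ∀ (m n : ℕ) (Z : Finset (Fin m × Fin n)),
    Null (Strong H fun _ => True) (W (rkS k Z)).as)
  of_gen : Strong H (fun _ => True) (T 0) → ∀ (S : Set (Sch k)) (X : Sch k), Q X →
    Pool.Agent.H92.ZW.Gen S X → (∀ Y ∈ S, Null (Strong H fun _ => True) (W Y).as) →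
      Strong H (fun _ => True) (h X)

include hT hH hW hQ hh

/-- **Murre's conjectures and completions of partial matrices.** -/
theorem murreReduces [RightRigidCategory 𝒜] (hG : ∀ M, Pool.Agent.W5h93.WC.Gen T h Q M) :
    MurreReduces T H W Q h := by
  have hadd := hH.additive
  have hne : ∃ A : 𝒜, (fun _ : 𝒜 => True) A := ⟨T 0, trivial⟩
  have hS' : ∀ A B : 𝒜, (fun _ : 𝒜 => True) A → (fun _ : 𝒜 => True) B →
    (fun _ : 𝒜 => True) (A ⊞ B) := fun _ _ _ _ => trivial
  have hR : Ret (fun _ : 𝒜 => True) := fun _ _ _ _ _ _ => trivial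
  have hN : ∀ (A : 𝒜) (l : ℤ), (fun _ : 𝒜 => True) A → (fun _ : 𝒜 => True) (A ⊗ T l) :=
    fun _ _ _ => trivial
  -- from all schemes of the class to all motives
  have hall : (∀ X, Q X → Null (Strong H fun _ => True) (W X).as) → ∀ M : 𝒜, Murre T H M := by
    intro h1
    rw [murre_iff hT hH]
    intro M
    refine hG M _ (fun A B hA hB => Strong.sum (fun _ _ => trivial) hA hB)
      (fun A l hA => Strong.twist hN hT hH hA l)
      (fun A B s r hs hB => Strong.retract hR s r hs hB) fun X hX => ?_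
    obtain ⟨e⟩ := hh X hX
    exact (null_cpx (V := strongCls hne hS' hR)).mp ((h1 X hX).of_iso (V := strongCls hne hS' hR) e)
  have hall' : (∀ M : 𝒜, Murre T H M) → ∀ X : Sch k, Null (Strong H fun _ => True) (W X).as :=
    fun h1 X => null_all hH ((murre_iff hT hH).mp h1) _
  have hB : Strong H (fun _ => True) (T 0) →
      Bnd True fun X : Sch k => Null (Strong H fun _ => True) (W X).as := fun h0 =>
    bnd_wc (V := strongCls hne hS' hR) (fun l A hA => Strong.twist hN hT hH hA l) h0 hW
  have h0 : ∀ X : Sch k, FT True X → Nonempty (X ≅ aff k k) →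
      Null (Strong H fun _ => True) (W X).as → Strong H (fun _ => True) (T 0) := by
    intro X hX ⟨e⟩ h1
    obtain ⟨e'⟩ := hW.iso hX ⟨e⟩
    obtain ⟨e''⟩ := hW.point
    exact (null_cpx (V := strongCls hne hS' hR)).mp
      (h1.of_iso (V := strongCls hne hS' hR) (e' ≪≫ e''))
  refine ⟨⟨fun h1 n Z _ => hall' h1 _, fun h1 => hall fun X hX => ?_⟩,
    ⟨fun h1 m n Z => hall' h1 _, fun h1 => hall fun X hX => ?_⟩,
    fun hk => ⟨fun h1 n Z _ => hall' h1 _, fun h1 => hall fun X hX => ?_⟩,
    fun hk => ⟨fun h1 m n Z => hall' h1 _, fun h1 => hall fun X hX => ?_⟩,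
    fun h0 S X hX hS h1 => ?_⟩
  · exact universal_glC3 (hB (h0 _ (ft_glC _) (glC_point fun i => i.elim0)
      (h1 0 _ ⟨fun i => i.elim0, fun i => i.elim0⟩))) h1 X (hQ.ft hX)
  · exact universal_rkC (hB (h0 _ (ft_aff True) (rkC_point fun i => i.elim0) (h1 0 0 _))) h1 X
      (hQ.ft hX)
  · exact universal_gl3 (frac_of_prime hk) (hB (h0 _ (ft_glS _) (glS_point ∅)
      (h1 0 _ ⟨fun i => i.elim0, fun i => i.elim0⟩))) h1 X (hQ.ft hX)
  · exact universal_rk (frac_of_prime hk) (hB (h0 _ (ft_aff True) (rkS_point ∅) (h1 0 0 _))) h1 X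
      (hQ.ft hX)
  · obtain ⟨e⟩ := hh X hX
    exact (null_cpx (V := strongCls hne hS' hR)).mp
      ((of_gen (hB h0) h1 X hS).of_iso (V := strongCls hne hS' hR) e)

end murre

end Pool.Agent.H92.ZW
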